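import Pool.Agent.Helper93.FRD.St
import Pool.Agent.Helper93.IA.Pro
import Pool.Agent.Helper49.TP.Mai

/-! Project FRD (MP_953b28_co): from the fractional theorem to completability, all `k ≤ (1/4 - ε) n`. -/

set_option autoImplicit false

namespace Pool.Agent.Helper49.FRG

open Finset Pool.Agent.Helper93.IA Pool.Agent.Helper49.TP Pool.Agent.Helper93.FRD
open Pool.Agent.Helper92.Proto (IsProtoplex Completable)

/-- The numerical condition of FRX with `η = δ`, `j = ⌊δ n⌋`. -/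
theorem cond (δ n k j : ℝ) (hδ : 0 < δ) (hδ1 : δ ≤ 1 / 8) (hn : 0 < n) (hk : k ≤ (1 / 4 - 2 * δ) * n)
    (hj : j ≤ δ * n) : n - k ≤ 3 / 2 * (1 - δ) * (n - 2 * k - j) := by
  have h1 : 0 ≤ (1 - δ) * (δ * n - j) := mul_nonneg (by linarith) (by linarith)
  have h2 : 0 ≤ (2 - 3 * δ) * ((1 / 4 - 2 * δ) * n - k) := mul_nonneg (by linarith) (by linarith)
  have h3 : 0 ≤ n * (δ * (7 / 4 - 9 / 2 * δ)) :=
    mul_nonneg hn.le (mul_nonneg hδ.le (by linarith))
  nlinarith [h1, h2, h3]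

theorem asym (hX : FRX) (hM : MAIX) :
    ∀ ε : ℝ, 0 < ε → ∃ n0 : ℕ, ∀ n k : ℕ, n0 ≤ n → (k : ℝ) ≤ (1 / 4 - ε) * n →
      ∀ P : Fin n → Fin n → Option (Fin n), IsProtoplex n k P → Completable P := by
  intro ε hε
  obtain ⟨δ, hδ0, hδ1, hδ2⟩ : ∃ δ : ℝ, 0 < δ ∧ δ ≤ 1 / 8 ∧ 2 * δ ≤ ε :=
    ⟨min (1 / 8) (ε / 2), lt_min (by norm_num) (by linarith), min_le_left _ _, by
      have := min_le_right (1 / 8 : ℝ) (ε / 2)
      linarith⟩
  obtain ⟨n0, h0⟩ := hM δ δ (1 / δ + 1) hδ0 hδ1 hδ0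
    (by have : 0 < 1 / δ := by positivity
        linarith)
  refine ⟨max n0 1, ?_⟩
  intro n k hn hk P hP
  have hn0 : n0 ≤ n := (le_max_left _ _).trans hn
  have hn1 : 0 < n := lt_of_lt_of_le Nat.one_pos ((le_max_right _ _).trans hn)
  have hnR : (0 : ℝ) < n := Nat.cast_pos.2 hn1
  have hk' : (k : ℝ) ≤ (1 / 4 - 2 * δ) * n :=
    hk.trans (mul_le_mul_of_nonneg_right (by linarith) hnR.le)
  have hδn : 0 < δ * n := mul_pos hδ0 hnR
  obtain ⟨x, hx0, hxT, hxN, hA, hB, hC⟩ := hX n k (pA P) (pB P) (pC P) (1 / (δ * n)) δ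
    ⌊δ * n⌋₊ hn1 (degs P hP) hδ0.le (by linarith) (by positivity)
    (by
      rw [mul_one_div, lt_div_iff₀ hδn, one_mul]
      exact Nat.lt_floor_add_one _)
    (cond δ n k _ hδ0 hδ1 hnR hk' (Nat.floor_le hδn.le))
  refine completable_of_dec P hP (h0 n k hn0 hk' (pA P) (pB P) (pC P)
    (fun a b c => n * x a b c) (degs P hP) ⟨fun a b c => ⟨?_, ?_⟩, fun a b c h => ?_,
      fun a b c h => ?_⟩ ?_ ?_ ?_)
  · exact mul_nonneg hnR.le (hx0 a b c).1
  · have h1 := mul_le_mul_of_nonneg_left (hx0 a b c).2 hnR.le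
    have h2 : (n : ℝ) * (1 / (δ * n) + δ / n) = 1 / δ + δ := by
      field_simp
    rw [h2] at h1
    linarith
  · by_contra h1
    exact h (by show (n : ℝ) * x a b c = 0; rw [hxN a b c h1, mul_zero])
  · have h1 := mul_le_mul_of_nonneg_left (hxT a b c h) hnR.le
    have h2 : (n : ℝ) * (δ / n) = δ := by field_simp
    rw [h2] at h1
    exact h1
  · intro a b h
    rw [← mul_sum, hA a b h, mul_one]
  · intro b c h
    rw [← mul_sum, hB b c h, mul_one]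
  · intro c a h
    rw [← mul_sum, hC c a h, mul_one]

end Pool.Agent.Helper49.FRG
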